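import Mathlib
import Pool.Agent.QP_fa6e01.Defs
import Pool.Agent.QP_fa6e01.Shift

set_option autoImplicit false

open Complex Metric Set Filter Topology ComplexConjugate
open scoped Manifold ContDiff

namespace Pool.Agent.Results.MP_fa6e01_an.NotAllProducts

open Pool.Agent.QP_fa6e01

section

variable {X : Type*} [TopologicalSpace X] [ChartedSpace ℂ X] [IsManifold 𝓘(ℂ) ω X]
variable {φ : X → ℂ} {σ : X → X} {B : ℂ → ℂ} {ϑ : X → ℂ}

/-- A function of the class `InClassL` either takes the same value at any two given critical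
points, or vanishes at both points of some fibre. -/
lemma classL_dichotomy (h : TwoSheeted φ σ B ϑ) {t : X → ℂ} (ht : InClassL φ ϑ t) {x₁ x₂ : X}
    (h1 : x₁ ∈ crit φ) (h2 : x₂ ∈ crit φ) :
    t x₁ = t x₂ ∨ ∃ y, t y = 0 ∧ t (σ y) = 0 := by
  rcases ht with ⟨b, hb, hbt⟩ | hϑ | ⟨b, u, hb, -, -, hbt⟩
  · obtain ⟨ι, a, c, ha, hs, hc, hbz⟩ := hb
    rcases isEmpty_or_nonempty ι with hι | ⟨⟨i⟩⟩
    · left
      rw [hbt, hbt, hbz _ (h.norm_lt x₁), hbz _ (h.norm_lt x₂)]
      simp
    · right
      have : Nonempty X := ⟨x₁⟩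
      obtain ⟨y, hy⟩ := surj_ball h.holo h.norm_lt h.proper h.crit_fin (ha i)
      have h0 : b (a i) = 0 := by
        rw [hbz _ (ha i)]
        have := bprod_apply_zero ha hs i
        rw [bprod] at this
        rw [this, mul_zero]
      exact ⟨y, by rw [hbt, hy, h0], by rw [hbt, h.phi_sigma, hy, h0]⟩
  · right
    refine ⟨x₁, ?_, ?_⟩
    · rw [hϑ, h.theta_crit h1]
    · rw [hϑ, h.theta_sigma, h.theta_crit h1, neg_zero]
  · left
    rw [hbt, hbt, h.theta_crit h1, h.theta_crit h2, mul_zero, mul_zero]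

/-- There are two critical points with different critical values. -/
lemma exists_two_values [T2Space X] [ConnectedSpace X] (h : TwoSheeted φ σ B ϑ) :
    ∃ x₁ x₂, x₁ ∈ crit φ ∧ x₂ ∈ crit φ ∧ φ x₁ ≠ φ x₂ := by
  obtain ⟨x₁, hx₁⟩ := h.crit_infinite.nonempty
  obtain ⟨x₂, hx₂, hne⟩ := h.crit_infinite.exists_notMem_finite (toFinite {x₁, σ x₁})
  refine ⟨x₁, x₂, hx₁, hx₂, ?_⟩
  intro he
  apply hne
  rcases h.fibre he with e | e
  · left; exact e
  · right; exact e

/-- The Frostman shift has no zeros in common with its conjugate. -/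
lemma no_common_zero (h : TwoSheeted φ σ B ϑ) {η : ℂ} (hη : ‖η‖ = 1 / 2) (y : X)
    (h1 : shift φ ϑ η y = 0) (h2 : shift φ ϑ η (σ y) = 0) : False := by
  have hη1 : ‖η‖ < 1 := by rw [hη]; norm_num
  have e1 : Th φ ϑ y = η := (mob_eq_zero_iff hη1 (h.norm_Th_lt y)).mp h1
  have e2 : Th φ ϑ (σ y) = η := (mob_eq_zero_iff hη1 (h.norm_Th_lt (σ y))).mp h2
  have hη0 : η ≠ 0 := by
    intro h0
    rw [h0, norm_zero] at hη
    norm_num at hη
  unfold Th at e1 e2
  rw [h.phi_sigma, h.theta_sigma] at e2
  have hφ0 : φ y ≠ 0 := by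
    intro h0
    rw [h0, zero_mul] at e1
    exact hη0 e1.symm
  have e3 : mob (1 / 2) (ϑ y) = mob (1 / 2) (-ϑ y) := by
    apply mul_left_cancel₀ hφ0
    rw [e1, e2]
  have e4 : ϑ y = -ϑ y := by
    apply mob_injOn norm_half_lt _ _ e3
    · rw [mem_ball_zero_iff]; exact h.norm_theta_lt y
    · rw [mem_ball_zero_iff, norm_neg]; exact h.norm_theta_lt y
  have e5 : ϑ y = 0 := by
    have : (2:ℂ) * ϑ y = 0 := by linear_combination e4
    simpa using this
  rw [e5, mob_zero] at e1
  have e6 : ‖φ y‖ = 1 := by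
    have := congrArg norm e1
    rw [norm_mul, norm_half, hη] at this
    linarith
  linarith [h.norm_lt y]

/-- **Answer to Q1 of MP_fa6e01_an (negative), for every covering as in the problem.**
Let `X` be a Riemann surface and let `φ, σ, B, ϑ` be as in the problem (`TwoSheeted`). Then there
is a quasi-proper map `θ` of `X` which is neither a finite product nor an infinite (even only
pointwise convergent) product of functions of the class `InClassL φ ϑ`, a class which contains the
family `𝓛` of the problem. -/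
theorem result {X : Type*} [TopologicalSpace X] [T2Space X] [ConnectedSpace X] [ChartedSpace ℂ X]
    [IsManifold 𝓘(ℂ) ω X] {φ : X → ℂ} {σ : X → X} {B : ℂ → ℂ} {ϑ : X → ℂ}
    (h : TwoSheeted φ σ B ϑ) :
    ∃ θ : X → ℂ, IsQuasiProper θ ∧ ¬ IsProductOf (InClassL φ ϑ) θ := by
  obtain ⟨η, hη, hqp⟩ := exists_quasiProper_shift h
  have hη1 : ‖η‖ < 1 := by rw [hη]; norm_num
  refine ⟨shift φ ϑ η, hqp, ?_⟩
  obtain ⟨x₁, x₂, hx₁, hx₂, hne⟩ := exists_two_values h
  -- the values at the two critical points differ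
  have hval : shift φ ϑ η x₁ ≠ shift φ ϑ η x₂ := by
    intro he
    have e1 := mob_injOn hη1 (by rw [mem_ball_zero_iff]; exact h.norm_Th_lt x₁)
      (by rw [mem_ball_zero_iff]; exact h.norm_Th_lt x₂) he
    unfold Th at e1
    rw [h.theta_crit hx₁, h.theta_crit hx₂, mob_zero] at e1
    apply hne
    exact mul_right_cancel₀ (by norm_num) e1
  rintro (⟨n, t, ht, hprod⟩ | ⟨t, ht, hlim⟩)
  · -- finite products
    by_cases hall : ∀ k < n, t k x₁ = t k x₂
    · apply hval
      rw [hprod, hprod]
      apply Finset.prod_congr rfl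
      intro k hk
      exact hall k (Finset.mem_range.mp hk)
    · push Not at hall
      obtain ⟨k, hk, hk'⟩ := hall
      rcases classL_dichotomy h (ht k hk) hx₁ hx₂ with e | ⟨y, hy1, hy2⟩
      · exact hk' e
      · apply no_common_zero h hη y
        · rw [hprod]
          exact Finset.prod_eq_zero (Finset.mem_range.mpr hk) hy1
        · rw [hprod]
          exact Finset.prod_eq_zero (Finset.mem_range.mpr hk) hy2
  · -- infinite products
    by_cases hall : ∀ k, t k x₁ = t k x₂
    · apply hval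
      have h1 := hlim x₁
      have h2 := hlim x₂
      have h3 : (fun n => ∏ k ∈ Finset.range n, t k x₁) =
          fun n => ∏ k ∈ Finset.range n, t k x₂ := by
        ext n
        exact Finset.prod_congr rfl fun k _ => hall k
      rw [h3] at h1
      exact tendsto_nhds_unique h1 h2
    · push Not at hall
      obtain ⟨k, hk'⟩ := hall
      rcases classL_dichotomy h (ht k) hx₁ hx₂ with e | ⟨y, hy1, hy2⟩
      · exact hk' e
      · have hz : ∀ y', t k y' = 0 → shift φ ϑ η y' = 0 := by
          intro y' hy'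
          apply tendsto_nhds_unique (hlim y')
          apply tendsto_const_nhds.congr'
          filter_upwards [eventually_gt_atTop k] with n hn
          exact (Finset.prod_eq_zero (Finset.mem_range.mpr hn) hy').symm
        exact no_common_zero h hη y (hz _ hy1) (hz _ hy2)

end

end Pool.Agent.Results.MP_fa6e01_an.NotAllProducts
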